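import Pool.Agent.Z700.Defs3
import Pool.Agent.Z179.TREE
import Pool.Agent.Y931.Z700.Exi

/-!
# Project Z701: existence of inert primes to be added
-/

set_option autoImplicit false
set_option linter.style.haveILetI false

namespace Pool.Agent.Y155.Z701

open Finset
open Pool.Agent.Z700 (pr Yd lres xrt)
open Pool.Agent.Y700 (Rt)
open Pool.Agent.Z701

/-- some change of the diagonal by zeros and ones makes the determinant odd -/
theorem exists_e (l : ℕ → ℕ → ℤ) (P : Finset ℕ) : ∀ x : ℕ → ℤ, ∃ e : ℕ → ℤ,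
    (∀ i, e i = 0 ∨ e i = 1) ∧ Odd (Yd l (fun k => x k + e k) P) := by
  classical
  induction P using Finset.induction_on with
  | empty =>
    intro x
    refine ⟨fun _ => 0, fun _ => Or.inl rfl, ?_⟩
    rw [Pool.Agent.Z179.yd_empty]
    exact odd_one
  | insert p Q hpQ ih =>
    intro x
    obtain ⟨e, he, ho⟩ := ih (fun k => x k + l k p)
    have h1 := Pool.Agent.Z179.yd_step l (fun k => x k + (if k = p then 0 else e k))
      (fun k => x k + (if k = p then 1 else e k)) (insert p Q) p (Finset.mem_insert_self p Q)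
      (by
        intro j _ hj
        simp [hj])
    have h2 : Yd l (fun k => x k + (if k = p then 0 else e k) + l k p) ((insert p Q).erase p) =
        Yd l (fun k => x k + l k p + e k) Q := by
      rw [Finset.erase_insert hpQ]
      refine Pool.Agent.Z179.yd_congr l fun i hi => ?_
      have : i ≠ p := fun h => hpQ (h ▸ hi)
      rw [if_neg this]
      ring
    rw [h2] at h1
    simp only [if_true] at h1
    rcases Int.even_or_odd (Yd l (fun k => x k + (if k = p then 0 else e k)) (insert p Q)) with h | h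
    · refine ⟨fun k => if k = p then 1 else e k, fun i => ?_, ?_⟩
      · by_cases hi : i = p
        · right; simp [hi]
        · simp only [if_neg hi]; exact he i
      · change Odd (Yd l (fun k => x k + (if k = p then 1 else e k)) (insert p Q))
        rw [h1, show x p + 1 - (x p + 0) = 1 by ring, one_mul]
        exact h.add_odd ho
    · refine ⟨fun k => if k = p then 0 else e k, fun i => ?_, h⟩
      by_cases hi : i = p
      · left; simp [hi]
      · simp only [if_neg hi]; exact he i

/-- the parity of the determinant depends on the diagonal modulo two only -/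
theorem yd_mod {l : ℕ → ℕ → ℤ} {x y : ℕ → ℤ} {P : Finset ℕ}
    (h : ∀ i ∈ P, (Odd (x i) ↔ Odd (y i))) : Odd (Yd l x P) ↔ Odd (Yd l y P) := by
  have h2 : ∀ i ∈ P, ((x i : ℤ) : ZMod 2) = ((y i : ℤ) : ZMod 2) := by
    intro i hi
    rw [ZMod.intCast_eq_intCast_iff]
    have h3 := h i hi
    rw [Int.odd_iff, Int.odd_iff] at h3
    unfold Int.ModEq
    push_cast
    omega
  rw [Pool.Agent.Y931.Z700.odd_iff, Pool.Agent.Y931.Z700.odd_iff]
  have h3 : ∀ (v : ℕ → ZMod 2), ∀ i ∈ P, (Pool.Agent.Y931.Z700.EqAt l x P v i ↔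
      Pool.Agent.Y931.Z700.EqAt l y P v i) := by
    intro v i hi
    unfold Pool.Agent.Y931.Z700.EqAt
    rw [h2 i hi]
  constructor
  · intro k v hv
    exact k v fun i hi => (h3 v i hi).2 (hv i hi)
  · intro k v hv
    exact k v fun i hi => (h3 v i hi).1 (hv i hi)

theorem exists_res {p : ℕ} (hp : Sp p) {s : ℤ} (hs : s = 1 ∨ s = -1) :
    ∃ r : ℕ, jacobiSym r p = s := by
  haveI : Fact p.Prime := ⟨hp.1⟩
  have hp2 : p ≠ 2 := by
    rintro rfl
    have := hp.2.1
    omega
  rcases hs with rfl | rfl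
  · exact ⟨1, by simp⟩
  · obtain ⟨a, ha⟩ := FiniteField.exists_nonsquare (F := ZMod p) (by rwa [ZMod.ringChar_zmod_n])
    refine ⟨a.val, ?_⟩
    rw [← jacobiSym.legendreSym.to_jacobiSym]
    rw [legendreSym.eq_neg_one_iff]
    push_cast
    rwa [ZMod.natCast_zmod_val]

/-- infinitely many inert primes with given symbols -/
theorem inf_nr (F : Finset ℕ) (hF : ∀ p ∈ F, Sp p) (s : ℕ → ℤ)
    (hs : ∀ p ∈ F, s p = 1 ∨ s p = -1) : {q | Nr q ∧ ∀ p ∈ F, jacobiSym q p = s p}.Infinite := by
  classical
  have hr : ∀ p : ℕ, ∃ r : ℕ, p ∈ F → jacobiSym r p = s p := by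
    intro p
    by_cases hp : p ∈ F
    · obtain ⟨r, hr⟩ := exists_res (hF p hp) (hs p hp)
      exact ⟨r, fun _ => hr⟩
    · exact ⟨0, fun h => absurd h hp⟩
  choose r hr using hr
  have h56 : 56 ∉ F := fun h => by
    have := (hF 56 h).2.1
    omega
  have hc56 : ∀ p ∈ F, Nat.Coprime 56 p := by
    intro p hp
    obtain ⟨pp, p8, p7⟩ := hF p hp
    rw [show (56 : ℕ) = 2 ^ 3 * 7 by norm_num]
    refine Nat.Coprime.mul_left (Nat.Coprime.pow_left 3
      ((Nat.coprime_primes Nat.prime_two pp).2 (by omega)))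
      ((Nat.coprime_primes (by norm_num) pp).2 (by omega))
  have hpair : Set.Pairwise (↑(insert 56 F) : Set ℕ) (Function.onFun Nat.Coprime id) := by
    intro a ha b hb hab
    simp only [Finset.coe_insert, Set.mem_insert_iff, Finset.mem_coe] at ha hb
    simp only [Function.onFun, id]
    rcases ha with rfl | ha <;> rcases hb with rfl | hb
    · exact absurd rfl hab
    · exact hc56 b hb
    · exact (hc56 a ha).symm
    · exact (Nat.coprime_primes (hF a ha).1 (hF b hb).1).mpr hab
  have hne : ∀ i ∈ insert 56 F, id i ≠ 0 := by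
    intro i hi
    rcases Finset.mem_insert.mp hi with rfl | hi
    · norm_num
    · exact (hF i hi).1.ne_zero
  obtain ⟨n, hn⟩ := Nat.chineseRemainderOfFinset (fun i => if i = 56 then 45 else r i) id
    (insert 56 F) hne hpair
  simp only [id] at hn
  have hn1 : n ≡ 45 [MOD 56] := by
    have := hn 56 (Finset.mem_insert_self _ _)
    simpa using this
  have hn2 : ∀ p ∈ F, n ≡ r p [MOD p] := by
    intro p hp
    have := hn p (Finset.mem_insert_of_mem hp)
    rwa [if_neg (fun h : p = 56 => h56 (h ▸ hp))] at this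
  set N := ∏ i ∈ insert 56 F, i with hN
  have hN0 : N ≠ 0 := Finset.prod_ne_zero_iff.mpr hne
  haveI : NeZero N := ⟨hN0⟩
  have hcop : Nat.Coprime n N := by
    refine Nat.Coprime.prod_right fun i hi => ?_
    rcases Finset.mem_insert.mp hi with rfl | hi
    · rw [Nat.coprime_iff_gcd_eq_one, hn1.gcd_eq]
      norm_num
    · rw [Nat.coprime_iff_gcd_eq_one, (hn2 i hi).gcd_eq]
      have h1 := hr i hi
      by_contra hg
      have h2 : jacobiSym (r i) i = 0 := by
        rw [jacobiSym.eq_zero_iff]
        exact ⟨(hF i hi).1.ne_zero, by rwa [Int.gcd_natCast_natCast]⟩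
      rw [h2] at h1
      rcases hs i hi with h | h <;> rw [h] at h1 <;> norm_num at h1
  have hunit : IsUnit ((n : ℕ) : ZMod N) := by
    rw [ZMod.isUnit_iff_coprime]
    exact hcop
  refine (Nat.infinite_setOfPred_prime_and_eq_mod hunit).mono ?_
  rintro q ⟨hq, hqn⟩
  rw [ZMod.natCast_eq_natCast_iff] at hqn
  have hdv : ∀ i ∈ insert 56 F, i ∣ N := fun i hi => Finset.dvd_prod_of_mem _ hi
  have hq1 : q ≡ 45 [MOD 56] := (hqn.of_dvd (hdv 56 (Finset.mem_insert_self _ _))).trans hn1
  have hq2 : ∀ p ∈ F, q ≡ r p [MOD p] := fun p hp =>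
    (hqn.of_dvd (hdv p (Finset.mem_insert_of_mem hp))).trans (hn2 p hp)
  have hJ : ∀ p ∈ F, jacobiSym q p = s p := by
    intro p hp
    rw [← hr p hp]
    apply jacobiSym.mod_left'
    exact_mod_cast hq2 p hp
  have h1 : q % 56 = 45 := by simpa [Nat.ModEq] using hq1
  exact ⟨⟨hq, by omega, by omega⟩, hJ⟩

theorem t_EXI (h : S_XRS) : S_EXI := by
  classical
  intro P S hP hS
  obtain ⟨e, he, ho⟩ := exists_e lres P (xrS S)
  have hinf := inf_nr P hP (fun p => if e p = 1 then -1 else 1) (fun p _ => by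
    by_cases h1 : e p = 1
    · right; simp [h1]
    · left; simp [h1])
  refine (hinf.sdiff (S.finite_toSet)).mono ?_
  rintro q ⟨⟨hq, hJ⟩, hqS⟩
  have hqS' : q ∉ S := fun h => hqS (by simpa using h)
  refine ⟨hq, hqS', ?_⟩
  refine (yd_mod fun p hp => ?_).1 ho
  have hS' : ∀ r ∈ insert q S, Nr r := by
    intro r hr
    rcases Finset.mem_insert.1 hr with rfl | hr
    · exact hq
    · exact hS r hr
  have e1 := h p (hP p hp) S hS
  have e2 := h p (hP p hp) (insert q S) hS'
  have e3 : ind (insert q S) p = lres p q + ind S p := by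
    unfold ind
    rw [Finset.sum_insert hqS']
  have hrec : jacobiSym p q = jacobiSym q p :=
    jacobiSym.quadratic_reciprocity_one_mod_four (by have := (hP p hp).2.1; omega)
      (by rw [Nat.odd_iff]; have := hq.2.1; omega)
  have hJp : jacobiSym q p = if e p = 1 then -1 else 1 := hJ p hp
  have e4 : lres p q = e p := by
    unfold lres
    rw [hrec, hJp]
    rcases he p with h1 | h1
    · rw [h1]; norm_num
    · rw [h1]; norm_num
  rw [e2, e3, e4]
  rw [Int.odd_iff] at e1 ⊢
  rw [Int.odd_iff] at e1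
  rw [Int.odd_iff]
  omega

end Pool.Agent.Y155.Z701
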